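import Pool.Agent.H645Z.Box.Main
import Pool.Agent.H645Z.Box.Exists

set_option autoImplicit false

open Pool.Agent.H645Z.Box

/-- For all `n ≠ m` the full box spaces of the free groups of ranks `n` and `m` are not coarsely
equivalent, whatever admissible metrics are put on the two disjoint unions (admissible metrics
exist: `Pool.Agent.H645Z.Box.exists_isBoxMetric`). -/
theorem Pool.Agent.Results.MP_a7957c_al.AAllRanks.result :
    ∀ n m : ℕ, n ≠ m → ∀ (D : BoxPt n → BoxPt n → ℝ) (D' : BoxPt m → BoxPt m → ℝ),
      IsBoxMetric n D → IsBoxMetric m D' → ¬∃ f : BoxPt n → BoxPt m, IsCoarseEquiv D D' f :=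
  fun n m h D D' hD hD' ⟨f, hf⟩ => main n m h D D' hD hD' f hf
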